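import Pool.Agent.N650.TH.Many
import Pool.Agent.N24.RW.All

/-!
# The exceptional surfaces `w ^ q = ∏ (x ^ M - ρ_i) u(x ^ M) + (b(x ^ M) + c t ^ (p ^ d)) ^ q` form a pronull set

Each of the finitely many tests of `Pool.Agent.Y160.T6` is passed by a positive proportion of the residues modulo
all large primes in a suitable infinite set, so the vectors which do not pass it form a pronull set
(`Pool.Agent.N24.RW.crit`).
-/

set_option autoImplicit false
set_option linter.unusedSectionVars false

namespace Pool.Agent.L5helper62.TS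

open Finset Filter Polynomial
open Pool.Agent.N24.RW (ProNull)
open Pool.Agent.Y160.T6
open Pool.Agent.Y160.SL (ManyWorks)
open Pool.Agent.Y160.T3 (place_R)
open Pool.Agent.Y160.EN (ManyD St_cond St_irr St_R St_S)

/-- a constant is not summable on an infinite set of primes -/
theorem not_summable_of_inf {s : Set ℕ} (hs : s.Infinite) (hsp : ∀ p ∈ s, p.Prime) {w : ℝ}
    (hw : 0 < w) [DecidablePred fun p => p ∈ s] :
    ¬ Summable (fun p : ℕ => if p.Prime then (if p ∈ s then w else 0) else 0) := by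
  intro h
  have h1 := h.tendsto_cofinite_zero
  have h2 : ∀ᶠ p : ℕ in cofinite, (if p.Prime then (if p ∈ s then w else 0) else 0) < w :=
    h1.eventually (gt_mem_nhds hw)
  have h3 : {p : ℕ | ¬ (if p.Prime then (if p ∈ s then w else 0) else 0) < w}.Finite := h2
  apply hs
  refine h3.subset ?_
  intro p hp
  simp only [Set.mem_ofPred_eq]
  rw [if_pos (hsp p hp), if_pos hp]
  exact lt_irrefl _

/-- one test -/
theorem bd_pro {N p R : ℕ} (hp : 0 < p) (hR : 0 < R) (k : Type) [Field k] [NumberField k]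
    (T : ∀ (F : Type) [Field F], (Fin N → F) → Prop) (h : CntT p R N T) : ProNull (Bd k T) := by
  classical
  obtain ⟨K₀, N₀, hK⟩ := h
  set s : Set ℕ := {P | P.Prime ∧ (∃ _ : Fact P.Prime, Nonempty (k →+* ℚ_[P])) ∧ p * R ∣ P - 1 ∧ N₀ ≤ P}
    with hs
  have hinf : s.Infinite := by
    rw [Set.infinite_iff_exists_gt]
    intro B
    obtain ⟨P, hP, hPB, hσ, hRP⟩ := place_R k (R := p * R) (Nat.mul_pos hp hR) (B + N₀)
    exact ⟨P, ⟨hP.out, ⟨hP, hσ⟩, hRP, by omega⟩, by omega⟩
  have hw : (0 : ℝ) < 1 / ((K₀ : ℝ) + 1) := by positivity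
  have hns := not_summable_of_inf hinf (fun P hP => hP.1) hw
  have h1 := Pool.Agent.N24.RW.crit (Fin N) (fun P => P) (fun P hP => hP.one_lt.le)
    (fun P P' hP hP' hne => (Nat.coprime_primes hP hP').2 hne)
    (fun P => {v | ∃ _ : Fact P.Prime, P ∈ s ∧ T (ZMod P) v}) 0
    (fun P => if P ∈ s then 1 / ((K₀ : ℝ) + 1) else 0) (fun P => by
      by_cases hP : P ∈ s
      · simp only [if_pos hP]; exact hw.le
      · simp only [if_neg hP]; exact le_rfl) hns (fun P hP _ => by
      by_cases hPs : P ∈ s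
      · have hfact : Fact P.Prime := ⟨hP⟩
        have : Fintype (ZMod P) := ZMod.fintype P
        have hcard : Fintype.card (ZMod P) = P := ZMod.card P
        have hPs' := hPs
        obtain ⟨-, -, hRP, hN₀⟩ := hPs'
        have h2 := hK (ZMod P) (by rw [hcard]; exact (Dvd.intro _ rfl).trans hRP)
          (by rw [hcard]; exact (Dvd.intro_left _ rfl).trans hRP) (by rw [hcard]; omega)
        rw [hcard] at h2
        have h3 : {v : Fin N → ZMod P | ∃ _ : Fact P.Prime, P ∈ s ∧ T (ZMod P) v} =
            {v : Fin N → ZMod P | T (ZMod P) v} := by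
          ext v
          constructor
          · rintro ⟨_, _, hT⟩
            exact hT
          · intro hT
            exact ⟨hfact, hPs, hT⟩
        simp only [if_pos hPs]
        rw [h3, Fintype.card_fin, one_div, inv_mul_le_iff₀ (by positivity)]
        have h4 : ((P ^ N : ℕ) : ℝ) ≤ ((K₀ * {v : Fin N → ZMod P | T (ZMod P) v}.ncard : ℕ) : ℝ) := by
          exact_mod_cast h2
        push_cast at h4
        refine h4.trans ?_
        have h5 : (0 : ℝ) ≤ ({v : Fin N → ZMod P | T (ZMod P) v}.ncard : ℝ) := by positivity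
        nlinarith
      · simp only [if_neg hPs, zero_mul]
        positivity)
  refine (Pool.Agent.N24.RW.clo (Fin N)).1 _ _ ?_ h1
  intro v hv P hP _
  rintro ⟨hfact, hPs, hT⟩
  obtain ⟨-, ⟨hf', hσ⟩, -, -⟩ := hPs
  exact hv P hσ hT

theorem proNull_union {N : ℕ} {A B : Set (Fin N → ℤ)} (hA : ProNull A) (hB : ProNull B) :
    ProNull (A ∪ B) := (Pool.Agent.N24.RW.clo (Fin N)).2.1 A B hA hB

theorem proNull_empty {N : ℕ} : ProNull (∅ : Set (Fin N → ℤ)) := by
  intro M _ ε hε
  refine ⟨1, one_pos, Nat.coprime_one_left M, ?_⟩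
  rw [Set.image_empty, Set.ncard_empty, Nat.cast_zero]
  positivity

theorem proNull_iUnion {N : ℕ} {α : Type} [Finite α] {A : α → Set (Fin N → ℤ)}
    (h : ∀ j, ProNull (A j)) : ProNull (⋃ j, A j) := by
  classical
  have := Fintype.ofFinite α
  have key : ∀ s : Finset α, ProNull (⋃ i ∈ s, A i) := by
    intro s
    induction s using Finset.induction_on with
    | empty => simpa using proNull_empty
    | insert a s ha ih =>
      rw [Finset.set_biUnion_insert]
      exact proNull_union (h a) ih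
  have := key Finset.univ
  simpa using this

/-- the exceptional vectors of one family over one number field -/
theorem exc_pro {p q n D r R : ℕ} (hp : p.Prime) (hq0 : 0 < q) (hn : 0 < n) (hD : 2 ≤ D)
    (hnr : n ≤ r + 1) (hqr : q * r < n + D) (hR : Odd R) (hcop' : q.Coprime (R * (n + D)))
    (k : Type) [Field k] [NumberField k] : ProNull (Exc p q n D r R k) := by
  have hI : St_irr := Pool.Agent.Y971.EN.irr2 Pool.Agent.Y100.EN.t_irr1
  have a1 := bd_pro hp.pos hR.pos k (TU R n D r) (cU hD hR)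
  have a2 := bd_pro hp.pos hR.pos k (TH q R n D r) (cH hI hn hD hR hq0 hnr hqr hcop')
  have a3 := bd_pro hp.pos hR.pos k (TC n D r) cC
  have a4 : ProNull (⋃ i, Bd k (TP R n D r i)) :=
    proNull_iUnion fun i => bd_pro hp.pos hR.pos k (TP R n D r i) (cP hR i)
  have a5 : ProNull (⋃ x : Fin n × (Fin n → Fin p), Bd k (TR p n D r x.1 x.2)) :=
    proNull_iUnion fun x => bd_pro hp.pos hR.pos k (TR p n D r x.1 x.2)
      (cR Pool.Agent.Y430.EN.t_R hp hD x.1 x.2)
  have a6 : ProNull (⋃ ε : Fin n → Fin p, Bd k (TS p q n D r ε)) :=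
    proNull_iUnion fun ε => bd_pro hp.pos hR.pos k (TS p q n D r ε)
      (cS Pool.Agent.Y737.EN.t_S hp hD hq0 hqr ε)
  exact proNull_union a1 (proNull_union a2 (proNull_union a3 (proNull_union a4
    (proNull_union a5 a6))))

/-- outside the exceptional vectors the conclusions hold -/
theorem works_of_not_exc {p s n D r R : ℕ} (hp : p.Prime) (hn : 0 < n) (hD : 2 ≤ D)
    (hqr : p ^ (s + 1) * r < n + D) (hcop : p.Coprime (n + D)) (hR : Odd R) (hpR : p.Coprime R)
    (k : Type) [Field k] [NumberField k] {ζ η : k} (hζ : IsPrimitiveRoot ζ (p ^ (s + 1)))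
    (hη : η ^ p = -1) {v : Fin (n + (D + (r + 2))) → ℤ}
    (hv : v ∉ Exc p (p ^ (s + 1)) n D r R k) : ManyWorks p (p ^ (s + 1)) n D r R k v := by
  obtain ⟨t1, t2, t3, t4, t5, t6⟩ := exc_some hv
  exact works_of Pool.Agent.Y833.EN.st_cond hp rfl hn hD hqr hcop hR hpR hζ hη t1 t2 t3 t4 t5 t6

end Pool.Agent.L5helper62.TS
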