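import Pool.Agent.N891.OR.SpD
import Pool.Agent.Y706.B13

set_option autoImplicit false

/-!
# Non-isotrivial families of polynomials over number fields: pronull exceptional sets

(after `Pool.Agent.Y706.main4`)
-/

namespace Pool.Agent.L5helper62.TS

open Pool.Agent.Y706 Pool.Agent.H936R2 Pool.Agent.H927R2.RD H294UB
open Pool.Agent.W275.UB hiding UD D0 Gen S_dens S_densp S_hit S_exu S_urel S_gen S_genT S_type
open Pool.Agent.W193.UB Pool.Agent.W277.UH Pool.Agent.W277.UG Pool.Agent.W277.UC NumberField Filter
  Topology
open Pool.Agent.N24.RW (ProNull)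

set_option linter.unusedSectionVars false

/-- **Strong uniform boundedness for 100% of the members of every non-isotrivial family of
polynomials.** -/
theorem polyPro (k : Type) [Field k] [NumberField k] (J : Type) [Fintype J]
    (ω : Module.Basis J ℤ (𝓞 k)) (d : ℕ) (hd : 2 ≤ d) (B : ℕ) (hB : 1 ≤ B)
    (m : ℕ) (P : Polynomial (MvPolynomial (Fin m) k)) (hP : P.natDegree = d)
      (hiso : ¬ ∃ y b : AlgebraicClosure (RFk k m), y ≠ 0 ∧ ∀ n, IsAlgebraic k
        ((aff y b ((P.map (algebraMap (MvPolynomial (Fin m) k) (RFk k m))).map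
          (algebraMap (RFk k m) (AlgebraicClosure (RFk k m))))).coeff n)) :
      ProNull {w : Fin (m + 1) × J → ℤ | ¬ (vec ω w 0 ≠ 0 ∧
        (P.map (MvPolynomial.eval (tp ω w))).natDegree = d ∧
        {x : AlgebraicClosure k | (Set.range fun n : ℕ => (fun z => Polynomial.aeval z
          (P.map (MvPolynomial.eval (tp ω w))))^[n] x).Finite ∧
          (minpoly k x).natDegree ≤ B}.encard ≤ ((Bdn d B * d ^ Bdn d B : ℕ) : ℕ∞))} := by
  classical
  have hcz0 : CharZero (RFk k m) :=
    charZero_of_injective_algebraMap (R := k) (algebraMap k _).injective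
  have hinj : Function.Injective (algebraMap (MvPolynomial (Fin m) k) (RFk k m)) :=
    IsFractionRing.injective _ _
  set f := P.map (algebraMap (MvPolynomial (Fin m) k) (RFk k m)) with hfdef
  have hf : f.natDegree = d := by
    rw [hfdef, Polynomial.natDegree_map_eq_of_injective hinj, hP]
  have hmax : max f.natDegree (1 : Polynomial (RFk k m)).natDegree = d := by
    rw [hf, Polynomial.natDegree_one]
    omega
  have hco : IsCoprime f (1 : Polynomial (RFk k m)) := isCoprime_one_right
  obtain ⟨i, hi⟩ := exists_dir hd (f.map (algebraMap (RFk k m) (AlgebraicClosure (RFk k m))))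
    (by rw [Polynomial.natDegree_map, hf]) hiso
  have h1 := geomB (tr_sub i) (gen_sub i) B d f hd hf hi
  have h2 := fewB_of_encard (by omega) hmax hco B _ h1
  obtain ⟨s, hM⟩ := monIn_of_good (by omega) hmax hco
  have hcoe : co f 1 d = fun i => algebraMap (MvPolynomial (Fin m) k) (RFk k m) (co P 1 d i) := by
    rw [co_map, Polynomial.map_one]
  rw [hcoe] at h2 hM
  have h3 := Pool.Agent.N891.OY.proNull_of fun {_} =>
    Pool.Agent.N455.TX.paramB ω (AlgebraicClosure k) hd (co P 1 d) hM h2
  refine Pool.Agent.N891.OY.proNull_mono h3 ?_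
  intro w hw hcon
  apply hw
  obtain ⟨g1, ⟨s', g2⟩, g3⟩ := hcon
  have htp : (fun i => MvPolynomial.eval (tp ω w) (co P 1 d i)) =
      co (P.map (MvPolynomial.eval (tp ω w))) 1 d := by
    rw [co_map, Polynomial.map_one]
  rw [htp] at g2 g3
  set p := P.map (MvPolynomial.eval (tp ω w)) with hp
  have hpd : p.natDegree ≤ d := Polynomial.natDegree_map_le.trans hP.le
  obtain ⟨hco', hmax'⟩ := of_monIn hpd (by rw [Polynomial.natDegree_one]; omega) g2
  have hpd' : p.natDegree = d := by
    rw [Polynomial.natDegree_one] at hmax'
    omega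
  have g4 := encard_of_fewB (by omega) hmax' hco' hB _ g3
  refine ⟨g1, hpd', ?_⟩
  have hstep : ∀ x : AlgebraicClosure k, ratP1 (p.map (algebraMap k (AlgebraicClosure k)))
      ((1 : Polynomial k).map (algebraMap k (AlgebraicClosure k))) d (some x) =
      some (Polynomial.aeval x p) := by
    intro x
    rw [ratP1_some, Polynomial.map_one, Polynomial.eval_one, div_one, Polynomial.eval_map_algebraMap]
    rw [Polynomial.map_one, Polynomial.eval_one]
    exact one_ne_zero
  have hiter : ∀ (m : ℕ) (x : AlgebraicClosure k),
      (ratP1 (p.map (algebraMap k (AlgebraicClosure k)))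
      ((1 : Polynomial k).map (algebraMap k (AlgebraicClosure k))) d)^[m] (some x) =
      some ((fun z => Polynomial.aeval z p)^[m] x) := by
    intro m
    induction m with
    | zero => intro x; rfl
    | succ m ih =>
      intro x
      rw [Function.iterate_succ_apply, hstep, ih, Function.iterate_succ_apply]
  have hsome : Function.Injective (some : AlgebraicClosure k → Option (AlgebraicClosure k)) :=
    Option.some_injective _
  set S : Set (AlgebraicClosure k) := {x | (Set.range fun n : ℕ =>
    (fun z => Polynomial.aeval z p)^[n] x).Finite ∧ (minpoly k x).natDegree ≤ B} with hS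
  have hsub : insert none (some '' S) ⊆ PB (AlgebraicClosure k) p 1 d B := by
    intro z hz
    rcases Set.mem_insert_iff.1 hz with rfl | ⟨x, ⟨hx1, hx2⟩, rfl⟩
    · refine ⟨?_, fun x hx => by cases hx⟩
      have hnone : ratP1 (p.map (algebraMap k (AlgebraicClosure k)))
          ((1 : Polynomial k).map (algebraMap k (AlgebraicClosure k))) d none = none := by
        rw [ratP1_none0]
        rw [Polynomial.map_one, Polynomial.coeff_one, if_neg (by omega)]
      rw [orb_fin]
      refine ⟨0, 1, one_pos, ?_⟩
      rw [Function.iterate_one, Function.iterate_zero, id_eq, hnone]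
    · refine ⟨?_, ?_⟩
      · rw [orb_fin] at hx1 ⊢
        obtain ⟨a, b, hab, h⟩ := hx1
        refine ⟨a, b, hab, ?_⟩
        rw [hiter, hiter]
        exact congrArg some h
      · rintro y hy
        have hyx : x = y := Option.some_injective _ hy
        subst hyx
        have hint : IsIntegral k x := (Algebra.IsAlgebraic.isAlgebraic (R := k) x).isIntegral
        refine ⟨IntermediateField.adjoin k {x}, IntermediateField.adjoin.finiteDimensional hint, ?_,
          IntermediateField.mem_adjoin_simple_self k x⟩
        rw [IntermediateField.adjoin.finrank hint]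
        exact hx2
  have g5 := (Set.encard_le_encard hsub).trans g4
  rw [Set.encard_insert_of_notMem (by rintro ⟨x, _, hx⟩; cases hx), hsome.encard_image] at g5
  push_cast at g5
  have g6 : S.encard + 1 ≤ ((Bdn d B * d ^ Bdn d B : ℕ) : ℕ∞) + 1 := by
    exact_mod_cast g5
  exact (ENat.add_le_add_iff_right (by simp)).1 g6

end Pool.Agent.L5helper62.TS
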