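import Pool.Agent.N891.OR.SpD
import Pool.Agent.Y706.P11
import Pool.Agent.Y706.B9

/-!
# Non-isotrivial families of rational maps over number fields: the exceptional parameters for the number
# of the rational preperiodic points form a pronull set
-/

set_option autoImplicit false

namespace Pool.Agent.L5helper62.TS

open Pool.Agent.Y706 Pool.Agent.W277.UH NumberField
open Pool.Agent.N24.RW (ProNull)

theorem ratP1_map {K L : Type} [Field K] [Field L] (f : K →+* L) (p q : Polynomial K) (d : ℕ)
    (z : Option K) : ratP1 (p.map f) (q.map f) d (z.map f) = (ratP1 p q d z).map f := by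
  cases z with
  | none =>
    by_cases h : q.coeff d = 0
    · rw [Option.map_none, ratP1_none0 _ _ _ h, ratP1_none0, Option.map_none]
      rw [Polynomial.coeff_map, h, map_zero]
    · rw [Option.map_none, ratP1_none _ _ _ h, ratP1_none, Option.map_some, Polynomial.coeff_map,
        Polynomial.coeff_map, map_div₀]
      rw [Polynomial.coeff_map]
      exact fun h0 => h (f.injective (by rw [h0, map_zero]))
  | some x =>
    by_cases h : q.eval x = 0
    · rw [Option.map_some, ratP1_some0 _ _ _ _ h, ratP1_some0, Option.map_none]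
      rw [Polynomial.eval_map, Polynomial.eval₂_hom, h, map_zero]
    · rw [Option.map_some, ratP1_some _ _ _ _ h, ratP1_some, Option.map_some, Polynomial.eval_map,
        Polynomial.eval_map, Polynomial.eval₂_hom, Polynomial.eval₂_hom, map_div₀]
      rw [Polynomial.eval_map, Polynomial.eval₂_hom]
      exact fun h0 => h (f.injective (by rw [h0, map_zero]))

theorem iter_map {K L : Type} [Field K] [Field L] (f : K →+* L) (p q : Polynomial K) (d : ℕ)
    (m : ℕ) (z : Option K) :
    (ratP1 (p.map f) (q.map f) d)^[m] (z.map f) = ((ratP1 p q d)^[m] z).map f := by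
  induction m generalizing z with
  | zero => rfl
  | succ m ih => rw [Function.iterate_succ_apply, Function.iterate_succ_apply, ratP1_map, ih]

/-- preperiodic points of degree at most one are rational -/
theorem pb_one {K : Type} [Field K] (p q : Polynomial K) (d : ℕ) :
    PB (AlgebraicClosure K) p q d 1 ⊆ Option.map (algebraMap K (AlgebraicClosure K)) ''
      {z : Option K | (Set.range fun m : ℕ => (ratP1 p q d)^[m] z).Finite} := by
  rintro z ⟨hz, hdeg⟩
  have hinj : Function.Injective (Option.map (algebraMap K (AlgebraicClosure K))) :=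
    Option.map_injective (algebraMap K (AlgebraicClosure K)).injective
  obtain ⟨y, rfl⟩ : ∃ y : Option K, y.map (algebraMap K (AlgebraicClosure K)) = z := by
    cases z with
    | none => exact ⟨none, rfl⟩
    | some x =>
      obtain ⟨E, h1, h2, h3⟩ := hdeg x rfl
      have hE : E = ⊥ := IntermediateField.finrank_eq_one_iff.1
        (le_antisymm h2 Module.finrank_pos)
      rw [hE, IntermediateField.mem_bot] at h3
      obtain ⟨y, hy⟩ := h3
      exact ⟨some y, by rw [Option.map_some, hy]⟩
  refine ⟨y, ?_, rfl⟩
  refine Set.Finite.of_finite_image (f := Option.map (algebraMap K (AlgebraicClosure K))) ?_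
    hinj.injOn
  refine hz.subset ?_
  rintro _ ⟨_, ⟨m, rfl⟩, rfl⟩
  exact ⟨m, iter_map _ _ _ _ _ _⟩

/-- rational preperiodic points are preperiodic points of degree at most one -/
theorem sub_pb {K : Type} [Field K] (p q : Polynomial K) (d : ℕ) :
    {z : Option K | (Set.range fun m : ℕ => (ratP1 p q d)^[m] z).Finite} ⊆ PB K p q d 1 := by
  intro z hz
  refine ⟨?_, ?_⟩
  · rw [Algebra.algebraMap_self, Polynomial.map_id, Polynomial.map_id]
    exact hz
  · intro x _
    refine ⟨⊤, inferInstance, ?_, IntermediateField.mem_top⟩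
    rw [IntermediateField.finrank_top']
    exact (Module.finrank_self K).le

/-- **Non-isotrivial families: pronull exceptional sets.** -/
theorem nonisotrivial : ∃ N : ℕ → ℕ, ∀ (k : Type) [Field k] [NumberField k] (J : Type) [Fintype J]
    (ω : Module.Basis J ℤ (𝓞 k)) (d : ℕ), 2 ≤ d →
    ∀ (m : ℕ) (P Q : Polynomial (MvPolynomial (Fin m) k)) (i : Fin m),
      max P.natDegree Q.natDegree = d →
      IsCoprime (P.map (algebraMap (MvPolynomial (Fin m) k) (FractionRing (MvPolynomial (Fin m) k))))
        (Q.map (algebraMap (MvPolynomial (Fin m) k) (FractionRing (MvPolynomial (Fin m) k)))) →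
      ¬ IsoOver (subF k i)
        (P.map (algebraMap (MvPolynomial (Fin m) k) (FractionRing (MvPolynomial (Fin m) k))))
        (Q.map (algebraMap (MvPolynomial (Fin m) k) (FractionRing (MvPolynomial (Fin m) k)))) d →
      ProNull {w : Fin (m + 1) × J → ℤ | ¬ (vec ω w 0 ≠ 0 ∧ GoodMap d (N d)
        (P.map (MvPolynomial.eval (tp ω w))) (Q.map (MvPolynomial.eval (tp ω w))))} := by
  obtain ⟨N, hN1, hN2⟩ := geom2
  refine ⟨N, fun k _ _ J _ ω d hd m P Q i hmaxP hco hiso => ?_⟩
  have hinj : Function.Injective (algebraMap (MvPolynomial (Fin m) k)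
      (FractionRing (MvPolynomial (Fin m) k))) := IsFractionRing.injective _ _
  have hmax : max (P.map (algebraMap (MvPolynomial (Fin m) k)
      (FractionRing (MvPolynomial (Fin m) k)))).natDegree
      (Q.map (algebraMap (MvPolynomial (Fin m) k)
        (FractionRing (MvPolynomial (Fin m) k)))).natDegree = d := by
    rw [Polynomial.natDegree_map_eq_of_injective hinj,
      Polynomial.natDegree_map_eq_of_injective hinj]
    exact hmaxP
  have hcz : CharZero (FractionRing (MvPolynomial (Fin m) k)) :=
    charZero_of_injective_algebraMap (R := k) (algebraMap k _).injective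
  have hg := hN2 (FractionRing (MvPolynomial (Fin m) k)) (subF k i) _ (tr_sub i) (gen_sub i) d hd
    _ _ hco hmax hiso
  have h1 : (PB (AlgebraicClosure (FractionRing (MvPolynomial (Fin m) k)))
      (P.map (algebraMap (MvPolynomial (Fin m) k) (FractionRing (MvPolynomial (Fin m) k))))
      (Q.map (algebraMap (MvPolynomial (Fin m) k) (FractionRing (MvPolynomial (Fin m) k))))
      d 1).encard ≤ ((N d : ℕ) : ℕ∞) :=
    (Set.encard_le_encard (pb_one _ _ d)).trans ((Set.encard_image_le _ _).trans hg.2.2)
  have h2 := fewB_of_encard (by omega) hmax hco 1 _ h1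
  obtain ⟨s, hM⟩ := monIn_of_good (by omega) hmax hco
  have hcoe : co (P.map (algebraMap (MvPolynomial (Fin m) k)
      (FractionRing (MvPolynomial (Fin m) k))))
      (Q.map (algebraMap (MvPolynomial (Fin m) k) (FractionRing (MvPolynomial (Fin m) k)))) d =
      fun i => algebraMap (MvPolynomial (Fin m) k) (FractionRing (MvPolynomial (Fin m) k))
        (co P Q d i) := by
    rw [co_map]
  rw [hcoe] at h2 hM
  have h3 := Pool.Agent.N891.OY.proNull_of fun {_} =>
    Pool.Agent.N455.TX.paramB ω k hd (co P Q d) hM h2
  refine Pool.Agent.N891.OY.proNull_mono h3 ?_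
  intro w hw hcon
  apply hw
  obtain ⟨g1, ⟨s', g2⟩, g3⟩ := hcon
  have htp : (fun i => MvPolynomial.eval (tp ω w) (co P Q d i)) =
      co (P.map (MvPolynomial.eval (tp ω w))) (Q.map (MvPolynomial.eval (tp ω w))) d := by
    rw [co_map]
  rw [htp] at g2 g3
  have hpd : (P.map (MvPolynomial.eval (tp ω w))).natDegree ≤ d :=
    Polynomial.natDegree_map_le.trans ((le_max_left _ _).trans hmaxP.le)
  have hqd : (Q.map (MvPolynomial.eval (tp ω w))).natDegree ≤ d :=
    Polynomial.natDegree_map_le.trans ((le_max_right _ _).trans hmaxP.le)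
  obtain ⟨hco', hmax'⟩ := of_monIn hpd hqd g2
  have g4 := encard_of_fewB (L := k) (by omega) hmax' hco' le_rfl _ g3
  exact ⟨g1, hco', hmax', (Set.encard_le_encard (sub_pb _ _ d)).trans g4⟩

end Pool.Agent.L5helper62.TS
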